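import Mathlib

open MeasureTheory ProbabilityTheory Filter Topology Set

namespace Pool.Agent.Results.MP_a1f67d_pr.Neg

lemma weak {Ω : Type} [MeasurableSpace Ω] (μ : Measure Ω) [IsProbabilityMeasure μ]
    (C : ℕ → Set Ω) (hC : ∀ n, MeasurableSet (C n)) (h1 : ∀ n, μ.real (C n) = 1 / 2)
    (h2 : ∀ m n, m ≠ n → μ.real (C m ∩ C n) = 1 / 4) {B : Set Ω} (hB : MeasurableSet B) :
    Tendsto (fun n => 2 * μ.real (C n ∩ B)) atTop (𝓝 (μ.real B)) := by
  set I : ∀ s : Set Ω, MeasurableSet s → Lp ℝ 2 μ :=
    fun s hs => indicatorConstLp 2 hs (measure_ne_top μ s) (1 : ℝ) with hI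
  have e : ∀ s t hs ht, inner ℝ (I s hs) (I t ht) = μ.real (s ∩ t) := fun s t hs ht =>
    L2.real_inner_indicatorConstLp_one_indicatorConstLp_one hs ht
  set v : ℕ → Lp ℝ 2 μ := fun n => (2 : ℝ) • I (C n) (hC n) - I univ MeasurableSet.univ with hv
  have o : Orthonormal ℝ v := by
    rw [orthonormal_iff_ite]
    intro m n
    simp only [hv, inner_sub_left, inner_sub_right, real_inner_smul_left, real_inner_smul_right, e,
      inter_univ, univ_inter, h1, probReal_univ]
    split_ifs with h
    · rw [h, inter_self, h1]; norm_num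
    · rw [h2 m n h]; norm_num
  have s := (o.inner_products_summable (x := I B hB)).tendsto_atTop_zero
  have s' : Tendsto (fun n => inner ℝ (v n) (I B hB)) atTop (𝓝 0) := by
    rw [tendsto_zero_iff_norm_tendsto_zero]
    have := (Real.continuous_sqrt.tendsto 0).comp s
    simpa [Function.comp_def, Real.sqrt_sq_eq_abs] using this
  simp only [hv, inner_sub_left, real_inner_smul_left, e, univ_inter] at s'
  simpa using s'.add_const (μ.real B)

noncomputable def mu : Measure (ℤ → Bool) := Measure.infinitePi fun _ => uniformOn univ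

instance : IsProbabilityMeasure mu := by unfold mu; infer_instance

lemma half : uniformOn (univ : Set Bool) {true} = 2⁻¹ := by
  rw [uniformOn_univ]; simp

lemma m1 (m : ℤ) : mu {ω | ω m = true} = 2⁻¹ := by
  have : {ω : ℤ → Bool | ω m = true} = Set.pi ({m} : Finset ℤ) fun _ => {true} := by
    ext ω; simp
  rw [this, mu, Measure.infinitePi_pi _ (fun _ _ => measurableSet_singleton _),
    Finset.prod_singleton, half]

lemma m2 {m n : ℤ} (h : m ≠ n) : mu ({ω | ω m = true} ∩ {ω | ω n = true}) = 2⁻¹ * 2⁻¹ := by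
  have : {ω : ℤ → Bool | ω m = true} ∩ {ω | ω n = true}
      = Set.pi ({m, n} : Finset ℤ) fun _ => {true} := by
    ext ω; simp
  rw [this, mu, Measure.infinitePi_pi _ (fun _ _ => measurableSet_singleton _),
    Finset.prod_pair h, half]

lemma shift (n : ℤ) : MeasurePreserving (fun (ω : ℤ → Bool) j => ω (j + n)) mu mu := by
  refine ⟨by fun_prop, ?_⟩
  have := Measure.infinitePi_map_piCongrLeft (X := fun _ : ℤ => Bool)
    (fun _ => uniformOn univ) (Equiv.addRight n).symm
  have e : (fun (ω : ℤ → Bool) j => ω (j + n))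
      = MeasurableEquiv.piCongrLeft (fun _ : ℤ => Bool) (Equiv.addRight n).symm := by
    funext ω j
    rw [MeasurableEquiv.coe_piCongrLeft, Equiv.piCongrLeft_apply_eq_cast]
    simp
  rw [e]
  exact this

theorem result : ∃ (E : Type) (_ : MeasurableSpace E) (Ω : Type) (_ : MeasurableSpace Ω)
    (P P' : Measure Ω) (_ : IsProbabilityMeasure P) (_ : IsProbabilityMeasure P')
    (X X' : ℕ → Ω → E), (∀ k, Measurable (X k)) ∧ (∀ k, Measurable (X' k)) ∧
    (∀ A : Set (ℕ → E), MeasurableSet A →
      Tendsto (fun n => P.real {ω | (fun k => X (n + k) ω) ∈ A}) atTop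
        (𝓝 (P'.real {ω | (fun k => X' k ω) ∈ A}))) ∧
    ∀ n, ∃ A : Set (ℕ → E), MeasurableSet A ∧
      |P.real {ω | (fun k => X (n + k) ω) ∈ A} - P'.real {ω | (fun k => X' k ω) ∈ A}| = 1 / 2 := by
  have mC : ∀ m : ℤ, MeasurableSet {ω : ℤ → Bool | ω m = true} := fun m =>
    (show Measurable fun ω : ℤ → Bool => ω m by fun_prop) (measurableSet_singleton true)
  have c0 : mu {ω | ω 0 = true} ≠ 0 := by rw [m1]; simp
  refine ⟨ℤ → Bool, inferInstance, ℤ → Bool, inferInstance, mu[|{ω | ω 0 = true}], mu,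
    cond_isProbabilityMeasure c0, inferInstance, fun k ω j => ω (j + k), fun k ω j => ω (j + k),
    fun k => by fun_prop, fun k => by fun_prop, fun A hA => ?_, fun n => ?_⟩
  · have hB : MeasurableSet {ω : ℤ → Bool | (fun (k : ℕ) j => ω (j + k)) ∈ A} :=
      (show Measurable fun (ω : ℤ → Bool) (k : ℕ) j => ω (j + k) by fun_prop) hA
    refine (weak mu (fun n => {ω | ω (-n) = true}) (fun n => mC _) (fun n => ?_)
      (fun m n h => ?_) hB).congr fun n => ?_
    · simp [Measure.real, m1]
    · rw [Measure.real, m2 (by simpa using h)]; norm_num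
    · rw [Measure.real, Measure.real, cond_apply (mC 0), m1, inv_inv, ENNReal.toReal_mul,
        ← (shift n).measure_preimage ((mC _).inter hB).nullMeasurableSet]
      congr 3
      ext ω
      simp [add_assoc, add_comm (n : ℤ)]
  · refine ⟨{x | x 0 (-n) = true}, ?_, ?_⟩
    · exact (show Measurable fun x : ℕ → ℤ → Bool => x 0 (-n) by fun_prop)
        (measurableSet_singleton true)
    · simp only [mem_setOf_eq, add_zero, neg_add_cancel, Nat.cast_zero, Measure.real]
      rw [cond_apply_self c0 (measure_ne_top _ _), m1]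
      norm_num [abs_of_pos]

end Pool.Agent.Results.MP_a1f67d_pr.Neg
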